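import Mathlib
import Pool.Agent.V5helper58.TW.One

/-! Several places of (potentially) multiplicative reduction which together carry a part of the
height of `j`. -/

set_option autoImplicit false
set_option linter.unusedSectionVars false

open Height NumberField Module Finset Pool.Agent.H951R3.PB Filter Topology TH951.LS TH951
open WeierstrassCurve
open Pool.Agent.TH942 Pool.Agent.TH910.LS Pool.Agent.Y725.LS Pool.Agent.V5helper58.TW

namespace Pool.Agent.V5helper58.LP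

/-- **A few large places.** -/
theorem few_places (D : ℕ) : ∃ C A : ℝ, 0 < C ∧ 0 ≤ A ∧
    ∀ (K : Type) [Field K] [NumberField K] [DecidableEq K], finrank ℚ K ≤ D →
    ∀ a b : K, 4 * a ^ 3 + 27 * b ^ 2 ≠ 0 → A < logHeight₁ (jinv a b) / finrank ℚ K →
    ∀ P : SPt a b, ¬ IsOfFinAddOrder P → ∀ (B : Finset (FinitePlace K)) (l : ℝ),
      (∀ v ∈ B, v.val 6 = 1 ∧ 1 < v.val (jinv a b)) →
      0 < l → l ≤ 1 → l * logHeight₁ (jinv a b) ≤ ∑ v ∈ B, Real.log (v.val (jinv a b)) →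
      l ^ 6 * (logHeight₁ (jinv a b) / finrank ℚ K) ≤
        C * 625 ^ B.card * (chat P / finrank ℚ K) := by
  classical
  obtain ⟨N₂, C₁, hC₁, hEI⟩ := energy_ineq.{0} D
  obtain ⟨A₂, hA₂, hEI⟩ := hEI 1 one_ne_zero
  obtain ⟨R, hR⟩ : ∃ R : ℝ, R = 64 * (2 * C₁ + 1) + N₂ + 2 := ⟨_, rfl⟩
  have hN0 : (0 : ℝ) ≤ N₂ := Nat.cast_nonneg _
  have hR1 : 1 ≤ R := by rw [hR]; linarith
  have hR0 : 0 < R := by linarith
  refine ⟨128 * C₁ * R ^ 6, A₂, by positivity, hA₂, ?_⟩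
  intro K _ _ _ hKD a b hab hAj P hP B l hBv hl0 hl1 hlj
  obtain ⟨s, hs⟩ : ∃ s : ℕ, s = B.card := ⟨_, rfl⟩
  have hd : (0 : ℝ) < finrank ℚ K := by exact_mod_cast (finrank_pos : 0 < finrank ℚ K)
  have hd1 : (1 : ℝ) ≤ finrank ℚ K := by exact_mod_cast (finrank_pos : 0 < finrank ℚ K)
  have hell : (sw a b).IsElliptic := sw_ell hab
  have hjj : (sw a b).j = jinv a b := jinv_eq _ _ hell
  rw [← hjj] at hAj hlj ⊢
  have hBj : ∀ v ∈ B, 1 < v.val (sw a b).j := fun v hv => by rw [hjj]; exact (hBv v hv).2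
  have hB6 : ∀ v ∈ B, v.val 6 = 1 := fun v hv => (hBv v hv).1
  set W := sw a b with hW
  have hlim : ∀ Q : SPt a b, Tendsto (fun n : ℕ =>
      logHeight ((2 ^ n • Q).xRep) / (4 ^ n * Module.finrank ℚ K)) atTop
      (𝓝 (chat Q / Module.finrank ℚ K)) := by
    intro Q
    have h := ((chat_spec hab).1 Q).div_const (Module.finrank ℚ K : ℝ)
    refine h.congr fun n => ?_
    rw [div_div]
    rfl
  obtain ⟨d, hdd⟩ : ∃ d : ℝ, d = finrank ℚ K := ⟨_, rfl⟩
  obtain ⟨H, hH⟩ : ∃ H : ℝ, H = logHeight₁ W.j / finrank ℚ K := ⟨_, rfl⟩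
  have hdH : logHeight₁ W.j = d * H := by rw [hH, hdd]; field_simp
  have hH0 : 0 < H := by rw [hH]; linarith
  have hHA₂ : A₂ ≤ H := by rw [hH]; linarith
  rw [← hH]
  rw [hdH] at hlj
  rw [← hdd] at hd hd1
  -- the number of points
  obtain ⟨k', hk1', hk2'⟩ := exists_nat_pow_near (x := R / l) (y := 2)
    (by rw [le_div_iff₀ hl0]; linarith) (by norm_num)
  obtain ⟨k, hk⟩ : ∃ k : ℕ, k = k' + 1 := ⟨_, rfl⟩
  rw [← hk] at hk2'
  have hk0 : 0 < k := by omega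
  have hk3 : (2 : ℝ) ^ k ≤ 2 * (R / l) := by
    rw [hk, pow_succ]; linarith
  obtain ⟨r, hr⟩ : ∃ r : ℝ, r = 2 ^ k := ⟨_, rfl⟩
  rw [← hr] at hk2' hk3
  have hr0 : 0 < r := by rw [hr]; positivity
  have hkr : (k : ℝ) ≤ r := by
    rw [hr]; exact_mod_cast (Nat.lt_two_pow_self (n := k)).le
  obtain ⟨n, hn⟩ : ∃ n : ℝ, n = (4 : ℝ) ^ k := ⟨_, rfl⟩
  have hnr : n = r * r := by
    rw [hn, hr, ← mul_pow]; norm_num
  have hRl : R ≤ R / l := by
    rw [le_div_iff₀ hl0]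
    nlinarith
  have hrR : R < r := by linarith
  have hr1 : 1 ≤ r := by linarith
  have hk1 : (1 : ℝ) ≤ k := by exact_mod_cast hk0
  have hN₂ : N₂ ≤ 4 ^ k := by
    have h1 : (N₂ : ℝ) ≤ (4 : ℝ) ^ k := by
      rw [← hn, hnr]
      have : (N₂ : ℝ) ≤ R := by rw [hR]; linarith
      nlinarith
    exact_mod_cast h1
  have hka : 2 * C₁ * k + 1 ≤ n * (l / 64) := by
    have h1 : 2 * C₁ * k + 1 ≤ (2 * C₁ + 1) * r := by
      have := mul_le_mul_of_nonneg_left hkr (show 0 ≤ 2 * C₁ by positivity)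
      linarith
    have h2 : R ≤ r * l := by
      rw [div_lt_iff₀ hl0] at hk2'
      exact hk2'.le
    have h3 : 64 * (2 * C₁ + 1) ≤ r * l := by
      rw [hR] at h2
      linarith
    rw [hnr]
    calc 2 * C₁ * k + 1 ≤ (2 * C₁ + 1) * r := h1
      _ = 64 * (2 * C₁ + 1) * (r / 64) := by ring
      _ ≤ r * l * (r / 64) := mul_le_mul_of_nonneg_right h3 (by positivity)
      _ = r * r * (l / 64) := by ring
  have hn2 : 2 ≤ n := by
    rw [hnr]
    have : 2 ≤ R := by rw [hR]; linarith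
    nlinarith
  have hn0 : 0 < n := by linarith
  have hkn : (k : ℝ) ≤ n := by rw [hnr]; nlinarith
  -- the poles
  have hj0 : W.j ≠ 0 := by
    intro h
    rw [hH, h] at hH0
    simp at hH0
  choose wf hwf using fun v : FinitePlace K => exists_ext_fin v
  have h61 : ∀ u : FinitePlace K, u.val ((6 * 1 : ℕ) : K) = 1 ↔ u.val 6 = 1 := by
    intro u
    have : ((6 * 1 : ℕ) : K) = 6 := by push_cast; norm_num
    rw [this]
  set S : Finset (FinitePlace K) := (F4_finite_ne hj0).toFinset.filter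
    (fun v => v.val ((6 * 1 : ℕ) : K) = 1 ∧ 1 < v.val W.j) with hSd
  have hS : ∀ v, v ∈ S ↔ v.val ((6 * 1 : ℕ) : K) = 1 ∧ 1 < v.val W.j := by
    intro v
    rw [hSd, Finset.mem_filter, Set.Finite.mem_toFinset, Set.mem_ofPred_eq]
    constructor
    · exact fun h => h.2
    · exact fun h => ⟨h.2.ne', h⟩
  obtain ⟨J, hJ⟩ : ∃ J : ℝ, J = ∑ v ∈ S, Real.log (v.val W.j) := ⟨_, rfl⟩
  have hJH : J ≤ d * H := by
    rw [← hdH, hJ]
    refine le_trans ?_ (FE.posLog_sum_le W.j S)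
    have h1 : 0 ≤ ∑ v : InfinitePlace K, (v.mult : ℝ) * Real.posLog (v.val W.j) :=
      Finset.sum_nonneg fun v _ => mul_nonneg (Nat.cast_nonneg _) Real.posLog_nonneg
    have h2 : ∑ v ∈ S, Real.log (v.val W.j) ≤ ∑ v ∈ S, Real.posLog (v.val W.j) :=
      Finset.sum_le_sum fun v _ => le_max_right _ _
    linarith
  have h2v : ∀ v ∈ B, v.val (2 : K) = 1 := by
    intro v hv
    have hv6 := hB6 v hv
    have a1 : v.val ((2 : ℕ) : K) ≤ 1 := NF.natCast_le_one v 2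
    have a2 : v.val ((3 : ℕ) : K) ≤ 1 := NF.natCast_le_one v 3
    have b1 : 0 ≤ v.val ((2 : ℕ) : K) := v.val.nonneg _
    have b2 : 0 ≤ v.val ((3 : ℕ) : K) := v.val.nonneg _
    have e1 : (6 : K) = ((2 : ℕ) : K) * ((3 : ℕ) : K) := by norm_num
    rw [e1, map_mul] at hv6
    have c1 : v.val ((2 : ℕ) : K) = 1 := by
      apply le_antisymm a1; nlinarith
    simpa using c1
  have hcell : ∀ v ∈ B, ∃ cell : (Fin 2 → K) → Fin 25, ∀ x y, wd x y ≠ 0 →
      cell x = cell y → Real.log (v.val W.j) / 32 ≤ gg (wf v) (ev (fL K (fW W))) 4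
      (Real.log (wf v (rs (fL K (fW W)) 4))) (vL K x) (vL K y) :=
    fun v hv => mult_cell v (hwf v) (h2v v hv) (hBj v hv)
  choose! cell hcell using hcell
  -- the multiples
  have hdist : ∀ i k : Fin (25 ^ s * 4 ^ k), i ≠ k →
      (((i : ℕ) + 1) • P).xRep ≠ (((k : ℕ) + 1) • P).xRep := by
    intro i k hik
    rcases lt_or_gt_of_ne (fun h => hik (Fin.ext h) : (i : ℕ) ≠ k) with h | h
    · exact mult_ne hP (by omega) (by omega)
    · exact (mult_ne hP (by omega) (by omega)).symm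
  obtain ⟨f, hf⟩ := Fintype.exists_le_card_fiber_of_mul_le_card
    (fun (i : Fin (25 ^ s * 4 ^ k)) (v : B) => cell v.1 (((i : ℕ) + 1) • P).xRep) (n := 4 ^ k) (by
      rw [Fintype.card_fun, Fintype.card_fin, Fintype.card_coe, Fintype.card_fin, hs])
  obtain ⟨Y, hYX, hYc⟩ := Finset.exists_subset_card_eq hf
  let e : Fin (4 ^ k) ≃ Y := (Finset.equivFinOfCardEq hYc).symm
  have he : ∀ i, ∀ v, ∀ hv : v ∈ B, cell v ((((e i).1 : ℕ) + 1) • P).xRep = f ⟨v, hv⟩ := by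
    intro i v hv
    have h1 := (Finset.mem_filter.1 (hYX (e i).2)).2
    exact congrFun h1 ⟨v, hv⟩
  have hQd : ∀ i k : Fin (4 ^ k), i ≠ k →
      ((((e i).1 : ℕ) + 1) • P).xRep ≠ ((((e k).1 : ℕ) + 1) • P).xRep := by
    intro i k hik
    apply hdist
    intro h
    exact hik (e.injective (Subtype.ext h))
  have hc0 : 0 ≤ chat P / d := div_nonneg ((chat_spec hab).2.1 P) hd.le
  obtain ⟨μ, hμ⟩ : ∃ μ : ℝ, μ = (25 ^ s * n) ^ 2 * (chat P / d) := ⟨_, rfl⟩
  have hμ0 : 0 ≤ μ := by rw [hμ]; positivity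
  have hQ' := hEI K hKD W wf hwf (fun Q => chat Q / finrank ℚ K) hlim ∅ S B
    (fun v => Real.log (v.val W.j) / 32)
    (fun v hv => absurd hv (Finset.notMem_empty v)) hS
    (fun u hu => by rw [h61]; exact hB6 u hu) k hk0
    hN₂ (fun i => (((e i).1 : ℕ) + 1) • P) hQd (fun u hu i k hik => by
      refine hcell u hu _ _ (wd_xRep W (hQd i k hik)) ?_
      rw [he i u hu, he k u hu]) μ hμ0
    (fun i => by
      rw [chat_nsmul hab, ← hdd, hμ, mul_div_assoc]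
      refine mul_le_mul_of_nonneg_right ?_ hc0
      refine pow_le_pow_left₀ (by positivity) ?_ 2
      have h1 := (e i).1.2
      have h2 : ((e i).1 : ℕ) + 1 ≤ 25 ^ s * 4 ^ k := h1
      rw [hn]
      exact_mod_cast h2) 0
  rw [Finset.sum_empty, ← hn, ← hJ, ← hdd, ← Finset.sum_div] at hQ'
  have key := num_2 (a := l / 64) (δ₁ := l) (z := ∑ v ∈ B, Real.log (v.val W.j)) (w := 0) hn2
    (by linarith) hC₁ (by positivity) hl0 le_rfl hka hJH
    (hHA₂.trans (le_mul_of_one_le_left hH0.le hd1)) hlj rfl (by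
      refine le_trans (le_of_eq ?_) hQ'
      ring)
  have key2 : H ≤ C₁ * (n + k) * μ := by
    have h1 : d * H ≤ d * (C₁ * (n + k) * μ) := by linarith
    exact le_of_mul_le_mul_left h1 hd
  have h625 : ((25 : ℝ) ^ s) ^ 2 = 625 ^ s := by
    rw [← pow_mul, mul_comm s 2, pow_mul]; norm_num
  have hc : H ≤ 2 * C₁ * 625 ^ s * n ^ 3 * (chat P / d) := by
    calc H ≤ C₁ * (n + k) * μ := key2
      _ ≤ C₁ * (n + n) * μ := by gcongr
      _ = 2 * C₁ * (25 ^ s) ^ 2 * n ^ 3 * (chat P / d) := by rw [hμ]; ring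
      _ = _ := by rw [h625]
  have hn3 : l ^ 6 * n ^ 3 ≤ 64 * R ^ 6 := by
    have h1 : l * r ≤ 2 * R := by
      have h2 := mul_le_mul_of_nonneg_left hk3 hl0.le
      have h3 : l * (2 * (R / l)) = 2 * R := by field_simp
      linarith
    have h2 : l ^ 6 * n ^ 3 = (l * r) ^ 6 := by rw [hnr]; ring
    rw [h2]
    calc (l * r) ^ 6 ≤ (2 * R) ^ 6 := pow_le_pow_left₀ (by positivity) h1 6
      _ = 64 * R ^ 6 := by ring
  rw [← hdd, ← hs]
  calc l ^ 6 * H ≤ l ^ 6 * (2 * C₁ * 625 ^ s * n ^ 3 * (chat P / d)) :=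
        mul_le_mul_of_nonneg_left hc (by positivity)
    _ = 2 * C₁ * 625 ^ s * (l ^ 6 * n ^ 3) * (chat P / d) := by ring
    _ ≤ 2 * C₁ * 625 ^ s * (64 * R ^ 6) * (chat P / d) := by gcongr
    _ = 128 * C₁ * R ^ 6 * 625 ^ s * (chat P / d) := by ring

end Pool.Agent.V5helper58.LP
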