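import Mathlib
import Pool.Agent.TH951.LS.Fam
import Pool.Agent.TH951.FE.Dyn

/-! The local contribution of any place to the height of `j` is bounded by the size of the
duplication map at this place. -/

set_option autoImplicit false
set_option linter.unusedSectionVars false

open Height NumberField Module Finset Pool.Agent.H951R3.PB Filter Topology TH951.LS TH951

namespace Pool.Agent.V5helper58.LP

universe u

section alg

variable {L : Type u} [Field L] [IsAlgClosed L] [CharZero L] {w : AbsoluteValue L ℝ}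

/-- the resultant of the Lattès map of a Legendre curve -/
theorem leg_res_gen {l : L} (h0 : l ≠ 0) (h1 : l ≠ 1)
    {r : ℝ} (hfib : Fib w (ev (leg l)) 4 r) :
    r = 4 * Real.log (w 4) + 4 * Real.log (w l) + 4 * Real.log (w (1 - l)) := by
  obtain ⟨s, hs⟩ := IsAlgClosed.exists_pow_nat_eq l (n := 2) (by norm_num)
  have hs0 : s ≠ 0 := by rintro rfl; apply h0; rw [← hs]; ring
  have hs1 : 1 - s ≠ 0 := by
    intro h; apply h1; rw [← hs, show s = 1 by linear_combination -h]; ring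
  have hs2 : 1 + s ≠ 0 := by
    intro h; apply h1; rw [← hs, show s = -1 by linear_combination h]; ring
  have h40 : (4 : L) ≠ 0 := by norm_num
  have hl1 : 1 - l ≠ 0 := sub_ne_zero.2 (Ne.symm h1)
  obtain ⟨C, z, hz⟩ := hfib ![1, 0] (by simp [nrm])
  have hC := w.pos hz.C_ne
  have hfac : ∀ x : Fin 2 → L, 4 * x 0 * x 1 * (x 0 - x 1) * (x 0 - l * x 1) =
      C * ∏ j, wd x (z j) := by
    intro x
    rw [← hz.fac x, ev_leg]
    simp [wd]
  -- the second coordinate vanishes on the fibre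
  have hF1 : ∀ j, ev (leg l) (z j) 1 = 0 := by
    intro j
    obtain ⟨c, -, hc⟩ := hz.img j
    rw [hc]; simp
  have hF0 : ∀ j, ev (leg l) (z j) 0 = wd (z j) ![s, 1] ^ 2 * wd (z j) ![-s, 1] ^ 2 := by
    intro j
    rw [ev_leg]
    simp only [wd, Matrix.cons_val_zero, Matrix.cons_val_one, ← hs]
    ring
  have hn : ∀ j, nrm w (ev (leg l) (z j)) = w (wd (z j) ![s, 1]) ^ 2 *
      w (wd (z j) ![-s, 1]) ^ 2 := by
    intro j
    unfold nrm
    rw [hF1, map_zero, max_eq_left (w.nonneg _), hF0, map_mul, map_pow, map_pow]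
  have hsw : ∀ x y : Fin 2 → L, w (wd x y) = w (wd y x) := by
    intro x y
    rw [← AbsoluteValue.map_neg]; congr 1; simp only [wd]; ring
  have hval : ∀ t : L, t ^ 2 = l →
      w C * ∏ j, w (wd (z j) ![t, 1]) = w 4 * w t ^ 2 * w (1 - t) ^ 2 := by
    intro t ht
    have h5 := congrArg w (hfac ![t, 1])
    simp only [Matrix.cons_val_zero, Matrix.cons_val_one, mul_one] at h5
    rw [map_mul w C, map_prod] at h5
    simp only [hsw (z _) ![t, 1]]
    rw [← h5]
    have e1 : w (t - 1) = w (1 - t) := by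
      rw [← AbsoluteValue.map_neg, neg_sub]
    have e2 : t - l = t * (1 - t) := by rw [← ht]; ring
    rw [e2]
    simp only [map_mul, e1]
    ring
  have v1 := hval s hs
  have v2 := hval (-s) (by rw [neg_pow_two]; exact hs)
  rw [AbsoluteValue.map_neg, sub_neg_eq_add] at v2
  have hres := hz.res
  have p4 := w.pos h40
  have ps := w.pos hs0
  have pm := w.pos hs1
  have pp := w.pos hs2
  have hprod1 : ∏ j, w (wd (z j) ![s, 1]) ≠ 0 := by
    intro h; rw [h, mul_zero] at v1
    have : 0 < w 4 * w s ^ 2 * w (1 - s) ^ 2 := by positivity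
    linarith
  have hprod2 : ∏ j, w (wd (z j) ![-s, 1]) ≠ 0 := by
    intro h; rw [h, mul_zero] at v2
    have : 0 < w 4 * w s ^ 2 * w (1 + s) ^ 2 := by positivity
    linarith
  have hne1 : ∀ j ∈ (Finset.univ : Finset (Fin 4)), w (wd (z j) ![s, 1]) ≠ 0 := fun j hj =>
    Finset.prod_ne_zero_iff.1 hprod1 j hj
  have hne2 : ∀ j ∈ (Finset.univ : Finset (Fin 4)), w (wd (z j) ![-s, 1]) ≠ 0 := fun j hj =>
    Finset.prod_ne_zero_iff.1 hprod2 j hj
  have hsum : ∑ j, Real.log (nrm w (ev (leg l) (z j))) =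
      2 * Real.log (∏ j, w (wd (z j) ![s, 1])) + 2 * Real.log (∏ j, w (wd (z j) ![-s, 1])) := by
    rw [Real.log_prod hne1, Real.log_prod hne2, Finset.mul_sum, Finset.mul_sum,
      ← Finset.sum_add_distrib]
    refine Finset.sum_congr rfl fun j hj => ?_
    rw [hn, Real.log_mul (pow_ne_zero _ (hne1 j hj)) (pow_ne_zero _ (hne2 j hj)), Real.log_pow,
      Real.log_pow]
    push_cast; ring
  have l1 := congrArg Real.log v1
  have l2 := congrArg Real.log v2
  rw [Real.log_mul hC.ne' hprod1, Real.log_mul (by positivity) (by positivity),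
    Real.log_mul (by positivity) (by positivity), Real.log_pow, Real.log_pow] at l1
  rw [Real.log_mul hC.ne' hprod2, Real.log_mul (by positivity) (by positivity),
    Real.log_mul (by positivity) (by positivity), Real.log_pow, Real.log_pow] at l2
  have l3 : Real.log (w l) = 2 * Real.log (w s) := by
    rw [← hs, map_pow, Real.log_pow]; push_cast; ring
  have l4 : Real.log (w (1 - l)) = Real.log (w (1 - s)) + Real.log (w (1 + s)) := by
    rw [← Real.log_mul pm.ne' pp.ne', ← map_mul]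
    congr 2
    rw [← hs]; ring
  rw [hsum] at hres
  push_cast at hres l1 l2
  rw [l3, l4]
  linarith

/-- the size of `l` and `j` is bounded by the losses of the canonical pairing -/
theorem leg_j {l : L} (h0 : l ≠ 0) (h1 : l ≠ 1) {r K : ℝ} (hfib : Fib w (ev (leg l)) 4 r)
    (hK : ∀ x y : Fin 2 → L, wd x y ≠ 0 → -K ≤ gg w (ev (leg l)) 4 r x y) {j : L} (hj0 : j ≠ 0)
    (hj : j * (l ^ 2 * (1 - l) ^ 2) = 256 * (l ^ 2 - l + 1) ^ 3) :
    Real.log (w j) ≤ 48 * K - 24 * Real.log (w 2) + 3 * Real.log 3 := by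
  have hr := leg_res_gen h0 h1 hfib
  have hl1 : 1 - l ≠ 0 := sub_ne_zero.2 (Ne.symm h1)
  have pi : (![1, 0] : Fin 2 → L) ≠ 0 := fun h => by
    have := congrFun h 0
    simp at this
  have p0 : (![0, 1] : Fin 2 → L) ≠ 0 := fun h => by
    have := congrFun h 1
    simp at this
  have p1 : (![1, 1] : Fin 2 → L) ≠ 0 := fun h => by
    have := congrFun h 1
    simp at this
  have pl : (![l, 1] : Fin 2 → L) ≠ 0 := fun h => by
    have := congrFun h 1
    simp at this
  have Gi : Gr w (ev (leg l)) 4 ![1, 0] = 0 := by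
    have h2 := gr_map (by norm_num) hfib pi
    have h3 : ev (leg l) ![1, 0] = ![1, 0] := by
      rw [ev_leg]; funext i; fin_cases i <;> simp
    rw [h3] at h2
    push_cast at h2
    linarith
  have key : ∀ (x : Fin 2 → L) (a : L), x ≠ 0 → a ≠ 0 → ev (leg l) x = a ^ 2 • ![1, 0] →
      Gr w (ev (leg l)) 4 x = Real.log (w a) / 2 := by
    intro x a hx ha hxa
    have h2 := gr_map (by norm_num) hfib hx
    rw [hxa, gr_smul (by norm_num) hfib pi (pow_ne_zero 2 ha), Gi, map_pow, Real.log_pow] at h2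
    push_cast at h2
    linarith
  have G0 : Gr w (ev (leg l)) 4 ![0, 1] = Real.log (w l) / 2 := key _ l p0 h0 (by
    rw [ev_leg]; funext i; fin_cases i <;> simp)
  have G1 : Gr w (ev (leg l)) 4 ![1, 1] = Real.log (w (1 - l)) / 2 := key _ (1 - l) p1 hl1 (by
    rw [ev_leg]; funext i; fin_cases i <;> simp)
  have Gl : Gr w (ev (leg l)) 4 ![l, 1] = (Real.log (w l) + Real.log (w (1 - l))) / 2 := by
    rw [key _ (l * (1 - l)) pl (mul_ne_zero h0 hl1) (by
      rw [ev_leg]; funext i; fin_cases i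
      · simp; ring
      · simp), map_mul, Real.log_mul (w.pos h0).ne' (w.pos hl1).ne']
  have w0 : wd (![1, 0] : Fin 2 → L) ![0, 1] = 1 := by simp [wd]
  have w1 : wd (![1, 0] : Fin 2 → L) ![1, 1] = 1 := by simp [wd]
  have wl : wd (![1, 0] : Fin 2 → L) ![l, 1] = 1 := by simp [wd]
  have g0 := hK ![1, 0] ![0, 1] (by rw [w0]; exact one_ne_zero)
  have g1 := hK ![1, 0] ![1, 1] (by rw [w1]; exact one_ne_zero)
  have gl := hK ![1, 0] ![l, 1] (by rw [wl]; exact one_ne_zero)
  unfold gg ta at g0 g1 gl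
  rw [w0, map_one, Real.log_one, Gi, G0, hr] at g0
  rw [w1, map_one, Real.log_one, Gi, G1, hr] at g1
  rw [wl, map_one, Real.log_one, Gi, Gl, hr] at gl
  push_cast at g0 g1 gl
  have h4 : Real.log (w 4) = 2 * Real.log (w 2) := by
    rw [show (4 : L) = 2 ^ 2 by norm_num, map_pow, Real.log_pow]; push_cast; ring
  rw [h4] at g0 g1 gl
  obtain ⟨a, ha⟩ : ∃ a, a = Real.log (w l) := ⟨_, rfl⟩
  obtain ⟨b, hb⟩ : ∃ b, b = Real.log (w (1 - l)) := ⟨_, rfl⟩
  obtain ⟨f, hf⟩ : ∃ f, f = Real.log (w 2) := ⟨_, rfl⟩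
  rw [← ha, ← hb, ← hf] at g0 g1 gl
  obtain ⟨Q, hQ⟩ : ∃ Q, Q = 6 * K - 4 * f := ⟨_, rfl⟩
  have q1 : 2 * b - a ≤ Q := by rw [hQ]; linarith
  have q2 : 2 * a - b ≤ Q := by rw [hQ]; linarith
  have q3 : -(a + b) ≤ Q := by rw [hQ]; linarith
  have hQ0 : 0 ≤ Q := by linarith
  -- the invariant
  have hpl := w.pos h0
  have hpl1 := w.pos hl1
  have hjl : w j * (w l ^ 2 * w (1 - l) ^ 2) = w 2 ^ 8 * w (l ^ 2 - l + 1) ^ 3 := by
    have := congrArg w hj
    rw [map_mul, map_mul, map_mul, map_pow, map_pow, map_pow,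
      show (256 : L) = 2 ^ 8 by norm_num, map_pow] at this
    exact this
  have hpj := w.pos hj0
  have hp2 : 0 < w 2 := w.pos (by norm_num)
  have hpq : 0 < w (l ^ 2 - l + 1) := by
    have h5 : 0 < w 2 ^ 8 * w (l ^ 2 - l + 1) ^ 3 := by rw [← hjl]; positivity
    have h6 : 0 < w (l ^ 2 - l + 1) ^ 3 := pos_of_mul_pos_right h5 (by positivity)
    by_contra hcon
    push Not at hcon
    have h7 : w (l ^ 2 - l + 1) = 0 := le_antisymm hcon (w.nonneg _)
    rw [h7] at h6
    norm_num at h6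
  have hl := congrArg Real.log hjl
  rw [Real.log_mul hpj.ne' (by positivity), Real.log_mul (by positivity) (by positivity),
    Real.log_mul (by positivity) (by positivity), Real.log_pow, Real.log_pow, Real.log_pow,
    Real.log_pow, ← ha, ← hb, ← hf] at hl
  push_cast at hl
  have hq : Real.log (w (l ^ 2 - l + 1)) ≤ Real.log 3 + 2 * Q := by
    have h5 : w (l ^ 2 - l + 1) ≤ 3 * Real.exp Q ^ 2 := by
      have h6 : w l ≤ Real.exp Q := by
        rw [← Real.log_le_iff_le_exp hpl, ← ha]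
        linarith
      have h7 : 1 ≤ Real.exp Q := Real.one_le_exp hQ0
      have h8 : w (l ^ 2 - l + 1) ≤ w l ^ 2 + w l + 1 := by
        calc w (l ^ 2 - l + 1) ≤ w (l ^ 2 - l) + w 1 := w.add_le _ _
          _ ≤ w (l ^ 2) + w l + w 1 := by
              refine add_le_add ?_ le_rfl
              rw [sub_eq_add_neg]
              refine (w.add_le _ _).trans (le_of_eq ?_)
              rw [AbsoluteValue.map_neg]
          _ = w l ^ 2 + w l + 1 := by rw [map_pow, map_one]
      have h9 : w l ^ 2 ≤ Real.exp Q ^ 2 := pow_le_pow_left₀ hpl.le h6 2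
      nlinarith
    have h6 := Real.log_le_log hpq h5
    rw [Real.log_mul (by norm_num) (by positivity), Real.log_pow, Real.log_exp] at h6
    push_cast at h6
    exact h6
  rw [hQ] at q3 hq
  linarith

end alg

/-- **The local contribution to the height of `j` is bounded by the size.** -/
theorem j_le_size : ∃ C : ℝ, 0 < C ∧ ∀ (K : Type u) [Field K] [NumberField K]
    (W : WeierstrassCurve K) [W.IsElliptic] (v : AbsoluteValue K ℝ)
    (w : AbsoluteValue (AlgebraicClosure K) ℝ), Ext v w →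
      Real.posLog (v W.j) ≤ C * (1 + max (msz 4 (fW W) w) 0) + 24 * |Real.log (v 2)| := by
  obtain ⟨B, hB, hlow⟩ := gg_ge_lam.{u} 4 (by norm_num)
  refine ⟨48 * (B + Real.log 2) + 3 * Real.log 3 + 1, ?_, ?_⟩
  · have h2 : 0 < Real.log 2 := Real.log_pos (by norm_num)
    have h3 : 0 < Real.log 3 := Real.log_pos (by norm_num)
    positivity
  intro K _ _ W _ v w hvw
  have hl2 : 0 < Real.log 2 := Real.log_pos (by norm_num)
  have hl3 : 0 < Real.log 3 := Real.log_pos (by norm_num)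
  have hm : 0 ≤ max (msz 4 (fW W) w) 0 := le_max_right _ _
  have habs : 0 ≤ |Real.log (v 2)| := abs_nonneg _
  by_cases hj0 : W.j = 0
  · rw [hj0, map_zero, Real.posLog_zero]
    positivity
  obtain ⟨e₁, e₂, e₃, h⟩ := roots_closure W
  obtain ⟨h0, h1⟩ := roots_l h
  have hne : e₂ - e₁ ≠ 0 := sub_ne_zero.2 (Ne.symm h.n12)
  have hfib := F4_fib (by norm_num : 1 ≤ 4) (fW_hom W) (fW_rs h) w
  have hab := roots_wd h
  obtain ⟨a', b', hab', hlow⟩ := hlow (AlgebraicClosure K) w _ _ hfib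
  have hc : ((e₂ - e₁) ^ 3)⁻¹ ≠ 0 := by positivity
  have hxy' : wd (![1, 0] : Fin 2 → AlgebraicClosure K) ![0, 1] ≠ 0 := by simp [wd]
  obtain ⟨hfib', -⟩ := gg_scale (by norm_num) (fib_cj hfib hab) hc hxy'
  have hK : ∀ x y : Fin 2 → AlgebraicClosure K, wd x y ≠ 0 →
      -(Real.log 2 + B * (max (msz 4 (fW W) w) 0 + 1)) ≤
      gg w (ev (leg ((e₃ - e₁) / (e₂ - e₁)))) 4
        (cr w 4 (Real.log (w (rs (fL K (fW W)) 4))) ![e₂ - e₁, 0] ![e₁, 1] +
          2 * (4 : ℕ) * Real.log (w ((e₂ - e₁) ^ 3)⁻¹)) x y := by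
    intro x y hxy
    obtain ⟨-, hgg⟩ := gg_scale (by norm_num) (fib_cj hfib hab) hc hxy
    rw [← roots_ev h] at hgg
    rw [hgg, gg_cj (by norm_num) hfib hab hxy]
    have hw1 : wd (emb ![e₂ - e₁, 0] ![e₁, 1] x) (emb ![e₂ - e₁, 0] ![e₁, 1] y) ≠ 0 := by
      rw [D2.wd_emb]
      exact mul_ne_zero hab hxy
    have h2 := hlow _ _ hw1
    have h3 : wd (coo a' b' (emb ![e₂ - e₁, 0] ![e₁, 1] x))
        (coo a' b' (emb ![e₂ - e₁, 0] ![e₁, 1] y)) ≠ 0 := by
      intro h4
      have h5 := D2.wd_emb a' b' (coo a' b' (emb ![e₂ - e₁, 0] ![e₁, 1] x))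
        (coo a' b' (emb ![e₂ - e₁, 0] ![e₁, 1] y))
      rw [D2.emb_coo hab', D2.emb_coo hab', h4, mul_zero] at h5
      exact hw1 h5
    have h4 := FE.lam_ge w h3
    have h5 : mm w (ev (fL K (fW W))) 4 (Real.log (w (rs (fL K (fW W)) 4))) =
      msz 4 (fW W) w := rfl
    rw [h5] at h2
    linarith
  rw [← roots_ev h] at hfib'
  have hj0' : algebraMap K (AlgebraicClosure K) W.j ≠ 0 := by
    rwa [ne_eq, map_eq_zero]
  have key := leg_j h0 h1 hfib' hK hj0' (j_roots W h)
  have hw2 : w (2 : AlgebraicClosure K) = v 2 := by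
    rw [← map_ofNat (algebraMap K (AlgebraicClosure K)) 2, hvw]
  rw [hvw, hw2] at key
  have h6 := neg_abs_le (Real.log (v 2))
  have hRHS : 0 ≤ (48 * (B + Real.log 2) + 3 * Real.log 3 + 1) * (1 + max (msz 4 (fW W) w) 0) +
      24 * |Real.log (v 2)| := by positivity
  refine max_le hRHS (key.trans ?_)
  nlinarith [mul_nonneg hl2.le hm, mul_nonneg hl3.le hm]

end Pool.Agent.V5helper58.LP
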