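import Mathlib
import Pool.Agent.V5helper58.LP.Few
import Pool.Agent.V5helper58.LP.Size
import Pool.Agent.V5helper58.LA.Final

/-! The archimedean places and the places above `6`, if they carry a part of the height of `j`. -/

set_option autoImplicit false
set_option linter.unusedSectionVars false

open Height NumberField Module Finset Pool.Agent.H951R3.PB Filter Topology TH951.LS TH951
open WeierstrassCurve
open Pool.Agent.TH942 Pool.Agent.TH910.LS Pool.Agent.Y725.LS Pool.Agent.V5helper58.TW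
open Pool.Agent.V5helper58.LA

namespace Pool.Agent.V5helper58.LP

/-- numbers of special places -/
theorem card_special (K : Type) [Field K] [NumberField K] (T₀ : Finset (FinitePlace K))
    (hT₀ : ∀ v ∈ T₀, v.val (6 : K) ≠ 1) :
    (T₀.card : ℝ) * Real.log 2 ≤ finrank ℚ K * logHeight₁ (6 : ℚ) := by
  obtain ⟨T, hT, hTc⟩ := card_poles ((6 : K)⁻¹)
  have hsub : T₀ ⊆ T := by
    intro v hv
    apply hT
    have h1 : v.val ((6 : ℕ) : K) ≤ 1 := NF.natCast_le_one v 6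
    have h2 : v.val (6 : K) < 1 := by
      refine lt_of_le_of_ne ?_ (hT₀ v hv)
      simpa using h1
    have h3 : 0 < v.val (6 : K) := v.val.pos (by norm_num)
    rw [map_inv₀]
    exact (one_lt_inv₀ h3).2 h2
  have h1 : (T₀.card : ℝ) ≤ T.card := by exact_mod_cast Finset.card_le_card hsub
  have h2 : 0 < Real.log 2 := Real.log_pos (by norm_num)
  have h3 : logHeight₁ ((6 : K)⁻¹) = finrank ℚ K * logHeight₁ (6 : ℚ) := by
    rw [logHeight₁_inv, ← logHeight₁_ext (L := K) (6 : ℚ), map_ofNat]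
  rw [h3] at hTc
  nlinarith

theorem card_inf (K : Type) [Field K] [NumberField K] :
    Fintype.card (InfinitePlace K) ≤ finrank ℚ K := by
  rw [← InfinitePlace.sum_mult_eq (K := K), ← Finset.card_univ, Finset.card_eq_sum_ones]
  exact Finset.sum_le_sum fun v _ => InfinitePlace.mult_pos

theorem log_two_sum (K : Type) [Field K] [NumberField K] (T₀ : Finset (FinitePlace K)) :
    ∑ v : InfinitePlace K, (v.mult : ℝ) * |Real.log (v.val (2 : K))| +
      ∑ v ∈ T₀, |Real.log (v.val (2 : K))| ≤ 2 * (finrank ℚ K * logHeight₁ (2 : ℚ)) := by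
  have h1 : logHeight₁ (2 : K) = finrank ℚ K * logHeight₁ (2 : ℚ) := by
    rw [← logHeight₁_ext (L := K) (2 : ℚ), map_ofNat]
  have h2 : logHeight₁ ((2 : K)⁻¹) = finrank ℚ K * logHeight₁ (2 : ℚ) := by
    rw [logHeight₁_inv, h1]
  have h3 := FE.posLog_sum_le (2 : K) ∅
  have h4 := FE.posLog_sum_le ((2 : K)⁻¹) T₀
  rw [Finset.sum_empty, add_zero, h1] at h3
  rw [h2] at h4
  have h5 : 0 ≤ ∑ v : InfinitePlace K, (v.mult : ℝ) * Real.posLog (v.val ((2 : K)⁻¹)) :=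
    Finset.sum_nonneg fun v _ => mul_nonneg (Nat.cast_nonneg _) Real.posLog_nonneg
  have h6 : ∑ v : InfinitePlace K, (v.mult : ℝ) * |Real.log (v.val (2 : K))| ≤
      ∑ v : InfinitePlace K, (v.mult : ℝ) * Real.posLog (v.val (2 : K)) := by
    refine Finset.sum_le_sum fun v _ => mul_le_mul_of_nonneg_left ?_ (Nat.cast_nonneg _)
    have h7 : v.val (2 : K) = 2 := by
      have h8 := InfinitePlace.norm_embedding_eq v (2 : K)
      rw [map_ofNat] at h8
      have h9 : ‖(2 : ℂ)‖ = 2 := by norm_num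
      rw [h9] at h8
      exact h8.symm
    rw [h7, abs_of_pos (Real.log_pos (by norm_num))]
    exact le_max_right _ _
  have h7 : ∑ v ∈ T₀, |Real.log (v.val (2 : K))| ≤
      ∑ v ∈ T₀, Real.posLog (v.val ((2 : K)⁻¹)) := by
    refine Finset.sum_le_sum fun v _ => ?_
    have h8 : v.val ((2 : ℕ) : K) ≤ 1 := NF.natCast_le_one v 2
    rw [map_inv₀, abs_of_nonpos (Real.log_nonpos (v.val.nonneg _) (by simpa using h8)),
      ← Real.log_inv]
    exact le_max_right _ _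
  linarith

/-- **The archimedean places and the places above `6`.** -/
theorem arch_places (D : ℕ) : ∃ C A : ℝ, 0 < C ∧ 0 ≤ A ∧
    ∀ (K : Type) [Field K] [NumberField K] [DecidableEq K], finrank ℚ K ≤ D →
    ∀ a b : K, 4 * a ^ 3 + 27 * b ^ 2 ≠ 0 →
    ∀ P : SPt a b, ¬ IsOfFinAddOrder P → ∀ (B : Finset (FinitePlace K)) (l : ℝ),
      (∀ v ∈ B, v.val 6 ≠ 1) → 0 < l → l ≤ 1 →
      A < l * (logHeight₁ (jinv a b) / finrank ℚ K) →
      l * logHeight₁ (jinv a b) ≤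
        ∑ v : InfinitePlace K, (v.mult : ℝ) * Real.posLog (v.val (jinv a b)) +
          ∑ v ∈ B, Real.posLog (v.val (jinv a b)) →
      l ^ 3 * (logHeight₁ (jinv a b) / finrank ℚ K) ≤ C * (chat P / finrank ℚ K) := by
  classical
  obtain ⟨M, c, B₀, hc, hB₀, hloc⟩ := FE.local_facts.{0} 4 (by norm_num)
  obtain ⟨C₀, hC₀, hsize⟩ := j_le_size.{0}
  have hl2 : 0 < Real.log 2 := Real.log_pos (by norm_num)
  obtain ⟨h6, hh6⟩ : ∃ h6 : ℝ, h6 = logHeight₁ (6 : ℚ) := ⟨_, rfl⟩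
  obtain ⟨h2, hh2⟩ : ∃ h2 : ℝ, h2 = logHeight₁ (2 : ℚ) := ⟨_, rfl⟩
  have h60 : 0 ≤ h6 := by rw [hh6]; exact zero_le_logHeight₁ _
  have h20 : 0 ≤ h2 := by rw [hh2]; exact zero_le_logHeight₁ _
  obtain ⟨q₁, hq₁⟩ : ∃ q₁ : ℕ, q₁ = ⌈D * h6 / Real.log 2⌉₊ := ⟨_, rfl⟩
  obtain ⟨q, hq⟩ : ∃ q : ℕ, q = D + q₁ := ⟨_, rfl⟩
  obtain ⟨M₁, hM₁⟩ : ∃ M₁ : ℕ, M₁ = M + 1 := ⟨_, rfl⟩
  obtain ⟨R, hR⟩ : ∃ R : ℝ, R = C₀ / (3 * c) + 2 := ⟨_, rfl⟩
  have hR2 : 2 ≤ R := by rw [hR]; have : 0 ≤ C₀ / (3 * c) := by positivity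
                         linarith
  obtain ⟨A₀, hA₀⟩ : ∃ A₀ : ℝ, A₀ = C₀ / c * (B₀ * q) + 48 * (D * h2) := ⟨_, rfl⟩
  have hA₀0 : 0 ≤ A₀ := by rw [hA₀]; positivity
  have hR0 : 0 < R := by linarith
  have hM₁0 : (0 : ℝ) < M₁ := by rw [hM₁]; positivity
  refine ⟨128 * C₀ / c * ((M₁ : ℝ) ^ q) ^ 2 * R ^ 2, 4 * A₀, by positivity, by positivity, ?_⟩
  intro K _ _ _ hKD a b hab P hP B l hB hl0 hl1 hlA hlj
  have hd : (0 : ℝ) < finrank ℚ K := by exact_mod_cast (finrank_pos : 0 < finrank ℚ K)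
  have hd1 : (1 : ℝ) ≤ finrank ℚ K := by exact_mod_cast (finrank_pos : 0 < finrank ℚ K)
  have hKD' : (finrank ℚ K : ℝ) ≤ D := by exact_mod_cast hKD
  have hell : (sw a b).IsElliptic := sw_ell hab
  have hjj : (sw a b).j = jinv a b := jinv_eq _ _ hell
  rw [← hjj] at hlA hlj ⊢
  set W := sw a b with hW
  obtain ⟨d, hdd⟩ : ∃ d : ℝ, d = finrank ℚ K := ⟨_, rfl⟩
  rw [← hdd] at hd hd1 hKD'
  obtain ⟨e₁, e₂, e₃, hRt⟩ := roots_closure W
  choose wi hwi using fun v : InfinitePlace K => exists_ext_inf v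
  choose wf hwf using fun v : FinitePlace K => exists_ext_fin v
  have hhom := fW_hom W
  have hrs := fW_rs hRt
  have hrsL : rs (fL K (fW W)) 4 ≠ 0 := F4_rs_ne hrs
  have h6K : (6 : K) ≠ 0 := by norm_num
  have h6v : ∀ v : FinitePlace K, v.val (6 : K) = 1 → v.val 2 = 1 := by
    intro v hv
    have a1 : v.val ((2 : ℕ) : K) ≤ 1 := NF.natCast_le_one v 2
    have a2 : v.val ((3 : ℕ) : K) ≤ 1 := NF.natCast_le_one v 3
    have b1 : 0 ≤ v.val ((2 : ℕ) : K) := v.val.nonneg _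
    have b2 : 0 ≤ v.val ((3 : ℕ) : K) := v.val.nonneg _
    have e1 : (6 : K) = ((2 : ℕ) : K) * ((3 : ℕ) : K) := by norm_num
    rw [e1, map_mul] at hv
    have c1 : v.val ((2 : ℕ) : K) = 1 := by
      apply le_antisymm a1; nlinarith
    simpa using c1
  set T₀ : Finset (FinitePlace K) := (F4_finite_ne h6K).toFinset with hT₀
  have hT₀mem : ∀ v, v ∈ T₀ ↔ v.val (6 : K) ≠ 1 := by
    intro v
    rw [hT₀, Set.Finite.mem_toFinset, Set.mem_ofPred_eq]
  have hlim : ∀ Q : SPt a b, Tendsto (fun n : ℕ =>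
      logHeight ((2 ^ n • Q).xRep) / (4 ^ n * Module.finrank ℚ K)) atTop
      (𝓝 (chat Q / Module.finrank ℚ K)) := by
    intro Q
    have h := ((chat_spec hab).1 Q).div_const (Module.finrank ℚ K : ℝ)
    refine h.congr fun n => ?_
    rw [div_div]
    rfl
  have hcanv : ∀ Q : SPt a b, hcan 4 (fW W) Q.xRep = chat Q := by
    intro Q
    have := tendsto_nhds_unique (hlim Q) (tendsto_K hRt Q)
    rw [← hdd] at this
    field_simp at this
    exact this.symm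
  -- numbers of special places
  have hT₀c : T₀.card ≤ q₁ := by
    have h1 := card_special K T₀ (fun v hv => (hT₀mem v).1 hv)
    rw [← hh6, ← hdd] at h1
    have h2 : (T₀.card : ℝ) ≤ D * h6 / Real.log 2 := by
      rw [le_div_iff₀ hl2]
      nlinarith
    rw [hq₁]
    exact_mod_cast h2.trans (Nat.le_ceil _)
  have hIc := card_inf K
  -- the number of points
  obtain ⟨k', hk1', hk2'⟩ := exists_nat_pow_near (x := R / l) (y := 4)
    (by rw [le_div_iff₀ hl0]; linarith) (by norm_num)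
  obtain ⟨k, hk⟩ : ∃ k : ℕ, k = k' + 1 := ⟨_, rfl⟩
  rw [← hk] at hk2'
  have hk3 : (4 : ℝ) ^ k ≤ 4 * (R / l) := by
    rw [hk, pow_succ]; linarith
  obtain ⟨n, hn⟩ : ∃ n : ℝ, n = (4 : ℝ) ^ k := ⟨_, rfl⟩
  rw [← hn] at hk2' hk3
  have hRl : R ≤ R / l := by
    rw [le_div_iff₀ hl0]
    nlinarith
  have hn2 : 2 ≤ n := by linarith
  have hn0 : 0 < n := by linarith
  -- the poles
  by_cases hj0 : W.j = 0
  · exfalso
    rw [hj0] at hlA
    simp at hlA
    linarith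
  set S : Finset (FinitePlace K) := (F4_finite_ne hj0).toFinset.filter
    (fun v => v.val (6 : K) = 1 ∧ 1 < v.val W.j) with hSd
  have hS : ∀ v, v ∈ S ↔ v.val (6 : K) = 1 ∧ 1 < v.val W.j := by
    intro v
    rw [hSd, Finset.mem_filter, Set.Finite.mem_toFinset, Set.mem_ofPred_eq]
    constructor
    · exact fun h => h.2
    · exact fun h => ⟨h.2.ne', h⟩
  obtain ⟨J, hJ⟩ : ∃ J : ℝ, J = ∑ v ∈ S, Real.log (v.val W.j) := ⟨_, rfl⟩
  obtain ⟨h, hh⟩ : ∃ h : ℝ, h = logHeight₁ W.j := ⟨_, rfl⟩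
  have hJH : J ≤ h := by
    rw [hh, hJ]
    refine le_trans ?_ (FE.posLog_sum_le W.j S)
    have h1 : 0 ≤ ∑ v : InfinitePlace K, (v.mult : ℝ) * Real.posLog (v.val W.j) :=
      Finset.sum_nonneg fun v _ => mul_nonneg (Nat.cast_nonneg _) Real.posLog_nonneg
    have h2 : ∑ v ∈ S, Real.log (v.val W.j) ≤ ∑ v ∈ S, Real.posLog (v.val W.j) :=
      Finset.sum_le_sum fun v _ => le_max_right _ _
    linarith
  have hpot : ∀ v, v ∉ T₀ → v ∉ S → PotGoodAt (wf v) 4 (fW W) := by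
    intro v hv1 hv2
    rw [hT₀mem, not_not] at hv1
    rw [hS] at hv2
    have hvj : v.val W.j ≤ 1 := by
      by_contra hcon
      push Not at hcon
      exact hv2 ⟨hv1, hcon⟩
    have h2 := h6v v hv1
    have h2w : wf v (2 : AlgebraicClosure K) = 1 := by
      rw [← map_ofNat (algebraMap K (AlgebraicClosure K)) 2, hwf v]; exact h2
    obtain ⟨p, q⟩ := potK hRt v (hwf v) h2 hvj
    exact roots_potGood hRt (ext_na v _ (hwf v)) h2w p q
  set sI : InfinitePlace K → ℝ := fun v => 1 + max (msz 4 (fW W) (wi v)) 0 with hsI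
  set sF : FinitePlace K → ℝ := fun v => 1 + max (msz 4 (fW W) (wf v)) 0 with hsF
  obtain ⟨bg, hbg⟩ : ∃ bg : ℝ, bg = ∑ v : InfinitePlace K, (v.mult : ℝ) * sI v +
    ∑ v ∈ T₀, sF v := ⟨_, rfl⟩
  -- the size is at least the share
  have hsz : l * h ≤ C₀ * bg + 48 * (D * h2) := by
    rw [hh]
    refine hlj.trans ?_
    have h1 : ∑ v ∈ B, Real.posLog (v.val W.j) ≤ ∑ v ∈ T₀, Real.posLog (v.val W.j) :=
      Finset.sum_le_sum_of_subset_of_nonneg (fun v hv => (hT₀mem v).2 (hB v hv))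
        fun _ _ _ => Real.posLog_nonneg
    have h3 : ∑ v : InfinitePlace K, (v.mult : ℝ) * Real.posLog (v.val W.j) ≤
        ∑ v : InfinitePlace K, (v.mult : ℝ) * (C₀ * sI v + 24 * |Real.log (v.val 2)|) :=
      Finset.sum_le_sum fun v _ => mul_le_mul_of_nonneg_left
        (hsize K W v.val (wi v) (hwi v)) (Nat.cast_nonneg _)
    have h4 : ∑ v ∈ T₀, Real.posLog (v.val W.j) ≤
        ∑ v ∈ T₀, (C₀ * sF v + 24 * |Real.log (v.val 2)|) :=
      Finset.sum_le_sum fun v _ => hsize K W v.val (wf v) (hwf v)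
    have h5 : ∑ v : InfinitePlace K, (v.mult : ℝ) * (C₀ * sI v + 24 * |Real.log (v.val 2)|) =
        C₀ * ∑ v : InfinitePlace K, (v.mult : ℝ) * sI v +
        24 * ∑ v : InfinitePlace K, (v.mult : ℝ) * |Real.log (v.val (2 : K))| := by
      rw [Finset.mul_sum, Finset.mul_sum, ← Finset.sum_add_distrib]
      exact Finset.sum_congr rfl fun v _ => by ring
    have h6 : ∑ v ∈ T₀, (C₀ * sF v + 24 * |Real.log (v.val 2)|) =
        C₀ * ∑ v ∈ T₀, sF v + 24 * ∑ v ∈ T₀, |Real.log (v.val (2 : K))| := by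
      rw [Finset.mul_sum, Finset.mul_sum, ← Finset.sum_add_distrib]
    have h7 := log_two_sum K T₀
    rw [← hh2, ← hdd] at h7
    have h8 : d * h2 ≤ D * h2 := mul_le_mul_of_nonneg_right hKD' h20
    rw [hbg, mul_add]
    linarith
  -- the cells
  have hcI : ∀ v : InfinitePlace K, ∃ cell : (Fin 2 → K) → Fin M, ∀ x y, wd x y ≠ 0 →
      cell x = cell y → c * sI v - B₀ ≤ FE.pot 4 (fW W) (wi v) x + FE.pot 4 (fW W) (wi v) y -
        Real.log (v.val (wd x y)) := fun v =>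
    (hloc K (fW W) hhom hrs v.val (wi v) (hwi v)).2.1
  have hcF : ∀ v : FinitePlace K, ∃ cell : (Fin 2 → K) → Fin M, ∀ x y, wd x y ≠ 0 →
      cell x = cell y → c * sF v - B₀ ≤ FE.pot 4 (fW W) (wf v) x + FE.pot 4 (fW W) (wf v) y -
        Real.log (v.val (wd x y)) := fun v =>
    (hloc K (fW W) hhom hrs v.val (wf v) (hwf v)).2.1
  choose cI hcI using hcI
  choose cF hcF using hcF
  haveI : Nonempty (Fin M) := ⟨cI (Classical.arbitrary (InfinitePlace K)) (fun _ => 0)⟩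
  -- the multiples
  obtain ⟨s, hs⟩ : ∃ s : ℕ, s = Fintype.card (InfinitePlace K) + T₀.card := ⟨_, rfl⟩
  have hsq : s ≤ q := by omega
  have hMs : M ^ s ≤ M₁ ^ q :=
    (Nat.pow_le_pow_left (by omega) s).trans (Nat.pow_le_pow_right (by omega) hsq)
  have hdist : ∀ i k : Fin (M ^ s * 4 ^ k), i ≠ k →
      (((i : ℕ) + 1) • P).xRep ≠ (((k : ℕ) + 1) • P).xRep := by
    intro i k hik
    rcases lt_or_gt_of_ne (fun h => hik (Fin.ext h) : (i : ℕ) ≠ k) with h | h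
    · exact mult_ne hP (by omega) (by omega)
    · exact (mult_ne hP (by omega) (by omega)).symm
  obtain ⟨f, hf⟩ := Fintype.exists_le_card_fiber_of_mul_le_card
    (fun (i : Fin (M ^ s * 4 ^ k)) (v : InfinitePlace K ⊕ T₀) =>
      Sum.elim (fun u => cI u (((i : ℕ) + 1) • P).xRep)
        (fun u : T₀ => cF u.1 (((i : ℕ) + 1) • P).xRep) v) (n := 4 ^ k) (by
      rw [Fintype.card_fun, Fintype.card_fin, Fintype.card_sum, Fintype.card_coe,
        Fintype.card_fin, hs])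
  obtain ⟨Y, hYX, hYc⟩ := Finset.exists_subset_card_eq hf
  let e : Fin (4 ^ k) ≃ Y := (Finset.equivFinOfCardEq hYc).symm
  have heI : ∀ i, ∀ v, cI v ((((e i).1 : ℕ) + 1) • P).xRep = f (Sum.inl v) := by
    intro i v
    have h1 := (Finset.mem_filter.1 (hYX (e i).2)).2
    exact congrFun h1 (Sum.inl v)
  have heF : ∀ i, ∀ v, ∀ hv : v ∈ T₀, cF v ((((e i).1 : ℕ) + 1) • P).xRep =
      f (Sum.inr ⟨v, hv⟩) := by
    intro i v hv
    have h1 := (Finset.mem_filter.1 (hYX (e i).2)).2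
    exact congrFun h1 (Sum.inr ⟨v, hv⟩)
  obtain ⟨Q, hQdef⟩ : ∃ Q : Fin (4 ^ k) → SPt a b, ∀ i, Q i = (((e i).1 : ℕ) + 1) • P :=
    ⟨_, fun _ => rfl⟩
  have hQ : ∀ i k : Fin (4 ^ k), i ≠ k → (Q i).xRep ≠ (Q k).xRep := by
    intro i k hik
    rw [hQdef, hQdef]
    apply hdist
    intro h
    exact hik (e.injective (Subtype.ext h))
  have hX0 : 0 ≤ chat P := (chat_spec hab).2.1 P
  obtain ⟨μ, hμ⟩ : ∃ μ : ℝ, μ = ((M₁ : ℝ) ^ q * n) ^ 2 * chat P := ⟨_, rfl⟩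
  have hμ0 : 0 ≤ μ := by rw [hμ]; positivity
  have hQμ : ∀ i, chat (Q i) ≤ μ := by
    intro i
    rw [hQdef, chat_nsmul hab, hμ]
    refine mul_le_mul_of_nonneg_right ?_ hX0
    refine pow_le_pow_left₀ (by positivity) ?_ 2
    have h1 := (e i).1.2
    have h2 : ((e i).1 : ℕ) + 1 ≤ M ^ s * 4 ^ k := h1
    have h3 : ((e i).1 : ℕ) + 1 ≤ M₁ ^ q * 4 ^ k := h2.trans (Nat.mul_le_mul_right _ hMs)
    rw [hn]
    exact_mod_cast h3
  have hwd : ∀ i k, i ≠ k → wd (Q i).xRep (Q k).xRep ≠ 0 := fun i k hik =>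
    wd_xRep W (hQ i k hik)
  -- the pairings
  obtain ⟨g, hg⟩ : ∃ g : FinitePlace K → Fin (4 ^ k) → Fin (4 ^ k) → ℝ, ∀ v i k, g v i k =
      gg (wf v) (ev (fL K (fW W))) 4 (Real.log (wf v (rs (fL K (fW W)) 4)))
        (vL K (Q i).xRep) (vL K (Q k).xRep) := ⟨_, fun _ _ _ => rfl⟩
  obtain ⟨gi, hgi⟩ : ∃ gi : InfinitePlace K → Fin (4 ^ k) → Fin (4 ^ k) → ℝ, ∀ v i k, gi v i k =
      gg (wi v) (ev (fL K (fW W))) 4 (Real.log (wi v (rs (fL K (fW W)) 4)))
        (vL K (Q i).xRep) (vL K (Q k).xRep) := ⟨_, fun _ _ _ => rfl⟩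
  have hgI : ∀ v i k, i ≠ k → c * sI v - B₀ ≤ gi v i k := by
    intro v i k hik
    rw [hgi, ← FE.pot_gg 4 (fW W) (hwi v)]
    refine hcI v _ _ (hwd i k hik) ?_
    rw [hQdef, hQdef, heI i v, heI k v]
  have hgF : ∀ v ∈ T₀, ∀ i k, i ≠ k → c * sF v - B₀ ≤ g v i k := by
    intro v hv i k hik
    rw [hg, ← FE.pot_gg 4 (fW W) (hwf v)]
    refine hcF v _ _ (hwd i k hik) ?_
    rw [hQdef, hQdef, heF i v hv, heF k v hv]
  have hglob : ∀ i k, i ≠ k → ∑ v : InfinitePlace K, (v.mult : ℝ) * gi v i k +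
      (∑ v ∈ T₀, g v i k + ∑ v ∈ S, g v i k) ≤ 2 * μ := by
    intro i k hik
    have h := global_le (by norm_num : 2 ≤ 4) hhom hrs wi hwi wf hwf (hwd i k hik) (T₀ ∪ S)
      (fun v hv => by
        rw [Finset.mem_union, not_or] at hv
        exact potgood_gg (by norm_num) hhom hrsL (wf v) (ext_na v _ (hwf v))
          (hpot v hv.1 hv.2) (wd_vL_ne (hwd i k hik)))
    rw [hcanv, hcanv, Finset.sum_union (by
      rw [Finset.disjoint_left]
      intro v hv hv'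
      exact (hT₀mem v).1 hv ((hS v).1 hv').1)] at h
    simp only [← hg, ← hgi] at h
    have h1 := hQμ i
    have h2 := hQμ k
    linarith
  have hcast : (((4 ^ k : ℕ) : ℕ) : ℝ) = n := by rw [hn]; push_cast; rfl
  have hoffcard : (((univ : Finset (Fin (4 ^ k))).offDiag.card : ℕ) : ℝ) = n * (n - 1) := by
    rw [Finset.offDiag_card, Finset.card_univ, Fintype.card_fin,
      Nat.cast_sub (Nat.le_mul_self _)]
    push_cast
    rw [hn]; ring
  have hES : ∀ v ∈ S, -(n * (Real.log (v.val W.j) / 6)) ≤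
      ∑ p ∈ (univ : Finset (Fin (4 ^ k))).offDiag, g v p.1 p.2 := by
    intro v hv
    obtain ⟨hv6, hvj⟩ := (hS v).1 hv
    have h4 := mult_energy (W := W) v (hwf v) (h6v v hv6) hvj (fun i => (Q i).xRep)
      (fun i k hik => hwd i k hik)
    rw [hcast] at h4
    simp only [← hg] at h4
    have h5 := Real.log_pos hvj
    refine le_trans ?_ h4
    have : 0 ≤ n ^ 2 * (Real.log (NF.Nm v) / (Nat.factorial 9 : ℕ)) ^ 2 /
      (6 * Real.log (v.val W.j)) := by positivity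
    linarith
  obtain ⟨Mq, hMq⟩ : ∃ Mq : ℝ, Mq = ∑ v : InfinitePlace K, (v.mult : ℝ) + T₀.card := ⟨_, rfl⟩
  have hMqq : Mq ≤ q := by
    have h1 : ∑ v : InfinitePlace K, (v.mult : ℝ) = finrank ℚ K := by
      rw [← InfinitePlace.sum_mult_eq (K := K)]
      push_cast
      rfl
    rw [hMq, h1, hq]
    push_cast
    have h2 : (T₀.card : ℝ) ≤ q₁ := by exact_mod_cast hT₀c
    rw [← hdd]
    linarith
  have htot : n * (n - 1) * (c * bg - B₀ * Mq) - n * (J / 6) ≤ n * (n - 1) * (2 * μ) := by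
    have e1 : ∑ p ∈ (univ : Finset (Fin (4 ^ k))).offDiag,
        (∑ v : InfinitePlace K, (v.mult : ℝ) * gi v p.1 p.2 +
          (∑ v ∈ T₀, g v p.1 p.2 + ∑ v ∈ S, g v p.1 p.2)) ≤
        ∑ p ∈ (univ : Finset (Fin (4 ^ k))).offDiag, 2 * μ :=
      Finset.sum_le_sum fun p hp => hglob p.1 p.2 (Finset.mem_offDiag.1 hp).2.2
    have e2 : ∑ p ∈ (univ : Finset (Fin (4 ^ k))).offDiag, (c * bg - B₀ * Mq) ≤
        ∑ p ∈ (univ : Finset (Fin (4 ^ k))).offDiag,
        (∑ v : InfinitePlace K, (v.mult : ℝ) * gi v p.1 p.2 + ∑ v ∈ T₀, g v p.1 p.2) := by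
      refine Finset.sum_le_sum fun p hp => ?_
      have hp' := (Finset.mem_offDiag.1 hp).2.2
      have f1 : ∑ v : InfinitePlace K, (v.mult : ℝ) * (c * sI v - B₀) ≤
          ∑ v : InfinitePlace K, (v.mult : ℝ) * gi v p.1 p.2 :=
        Finset.sum_le_sum fun v _ => mul_le_mul_of_nonneg_left (hgI v _ _ hp')
          (Nat.cast_nonneg _)
      have f2 : ∑ v ∈ T₀, (c * sF v - B₀) ≤ ∑ v ∈ T₀, g v p.1 p.2 :=
        Finset.sum_le_sum fun v hv => hgF v hv _ _ hp'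
      have f3 : ∑ v : InfinitePlace K, (v.mult : ℝ) * (c * sI v - B₀) =
          c * ∑ v : InfinitePlace K, (v.mult : ℝ) * sI v -
            B₀ * ∑ v : InfinitePlace K, (v.mult : ℝ) := by
        rw [Finset.mul_sum, Finset.mul_sum, ← Finset.sum_sub_distrib]
        exact Finset.sum_congr rfl fun v _ => by ring
      have f4 : ∑ v ∈ T₀, (c * sF v - B₀) = c * ∑ v ∈ T₀, sF v - B₀ * T₀.card := by
        rw [Finset.sum_sub_distrib, Finset.mul_sum, Finset.sum_const, nsmul_eq_mul]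
        ring
      rw [hbg, hMq]
      linarith
    rw [Finset.sum_const, nsmul_eq_mul, hoffcard] at e1 e2
    have e3 : ∑ p ∈ (univ : Finset (Fin (4 ^ k))).offDiag,
        (∑ v : InfinitePlace K, (v.mult : ℝ) * gi v p.1 p.2 +
          (∑ v ∈ T₀, g v p.1 p.2 + ∑ v ∈ S, g v p.1 p.2)) =
        ∑ p ∈ (univ : Finset (Fin (4 ^ k))).offDiag,
        (∑ v : InfinitePlace K, (v.mult : ℝ) * gi v p.1 p.2 + ∑ v ∈ T₀, g v p.1 p.2) +
        ∑ p ∈ (univ : Finset (Fin (4 ^ k))).offDiag, ∑ v ∈ S, g v p.1 p.2 := by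
      rw [← Finset.sum_add_distrib]
      exact Finset.sum_congr rfl fun p _ => by ring
    have e4 : -(n * (J / 6)) ≤
        ∑ p ∈ (univ : Finset (Fin (4 ^ k))).offDiag, ∑ v ∈ S, g v p.1 p.2 := by
      rw [Finset.sum_comm, hJ, Finset.sum_div, Finset.mul_sum, ← Finset.sum_neg_distrib]
      exact Finset.sum_le_sum fun v hv => hES v hv
    rw [e3] at e1
    linarith
  have hn1 : 0 < n - 1 := by linarith
  have hmain : c * bg ≤ 2 * μ + B₀ * q + J / (6 * (n - 1)) := by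
    have h1 : n * (n - 1) * (c * bg) ≤ n * (n - 1) * (2 * μ + B₀ * q + J / (6 * (n - 1))) := by
      have h2 : n * (n - 1) * (J / (6 * (n - 1))) = n * (J / 6) := by
        field_simp
      have h3 : n * (n - 1) * (B₀ * Mq) ≤ n * (n - 1) * (B₀ * q) := by gcongr
      rw [mul_add, mul_add, h2]
      linarith
    exact le_of_mul_le_mul_left h1 (by positivity)
  have hh0 : 0 ≤ h := by rw [hh]; exact zero_le_logHeight₁ _
  -- the choice of the number of points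
  have hnl : C₀ / (3 * c) ≤ l * (n - 1) := by
    have h1 : R ≤ l * n := by
      rw [div_lt_iff₀ hl0] at hk2'
      linarith
    rw [hR] at h1
    linarith
  have hJ2 : C₀ / c * (J / (6 * (n - 1))) ≤ l * h / 2 := by
    have h1 : J / (6 * (n - 1)) ≤ h / (6 * (n - 1)) :=
      div_le_div_of_nonneg_right hJH (by positivity)
    refine (mul_le_mul_of_nonneg_left h1 (by positivity)).trans ?_
    have h3 : C₀ / c * (h / (6 * (n - 1))) = C₀ / (3 * c) * (h / (2 * (n - 1))) := by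
      field_simp
      ring
    rw [h3]
    refine (mul_le_mul_of_nonneg_right hnl (by positivity)).trans (le_of_eq ?_)
    field_simp
  have hmain2 : l * h ≤ C₀ / c * (2 * μ) + A₀ + l * h / 2 := by
    have h1 : C₀ * bg ≤ C₀ / c * (2 * μ + B₀ * q + J / (6 * (n - 1))) := by
      have h2 := mul_le_mul_of_nonneg_left hmain (show 0 ≤ C₀ / c by positivity)
      refine le_trans (le_of_eq ?_) h2
      field_simp
    rw [hA₀]
    rw [mul_add, mul_add] at h1
    linarith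
  obtain ⟨X, hX⟩ : ∃ X : ℝ, X = chat P / d := ⟨_, rfl⟩
  obtain ⟨H, hH⟩ : ∃ H : ℝ, H = h / d := ⟨_, rfl⟩
  rw [← hdd, ← hh, ← hH] at hlA
  rw [← hdd, ← hh, ← hH, ← hX]
  have hhH : h = d * H := by rw [hH]; field_simp
  have hPX : chat P = d * X := by rw [hX]; field_simp
  have hX0' : 0 ≤ X := by rw [hX]; positivity
  have hH0 : 0 ≤ H := by rw [hH]; positivity
  have hA4 : A₀ ≤ l * h / 4 := by
    have h1 : l * H ≤ l * h := by
      rw [hhH]
      exact mul_le_mul_of_nonneg_left (le_mul_of_one_le_left hH0 hd1) hl0.le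
    linarith
  have h3 : l * H ≤ 8 * C₀ / c * (((M₁ : ℝ) ^ q * n) ^ 2 * X) := by
    have h4 : d * (l * H) ≤ d * (8 * C₀ / c * (((M₁ : ℝ) ^ q * n) ^ 2 * X)) := by
      have h5 : C₀ / c * (2 * μ) = d * (2 * C₀ / c * (((M₁ : ℝ) ^ q * n) ^ 2 * X)) := by
        rw [hμ, hPX]
        ring
      rw [h5] at hmain2
      rw [hhH] at hmain2 hA4
      have h6 : d * (8 * C₀ / c * (((M₁ : ℝ) ^ q * n) ^ 2 * X)) =
          4 * (d * (2 * C₀ / c * (((M₁ : ℝ) ^ q * n) ^ 2 * X))) := by ring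
      rw [h6]
      linarith
    exact le_of_mul_le_mul_left h4 hd
  have hln : l * n ≤ 4 * R := by
    have h2 := mul_le_mul_of_nonneg_left hk3 hl0.le
    have h3 : l * (4 * (R / l)) = 4 * R := by field_simp
    linarith
  calc l ^ 3 * H = l ^ 2 * (l * H) := by ring
    _ ≤ l ^ 2 * (8 * C₀ / c * (((M₁ : ℝ) ^ q * n) ^ 2 * X)) :=
        mul_le_mul_of_nonneg_left h3 (by positivity)
    _ = 8 * C₀ / c * ((M₁ : ℝ) ^ q) ^ 2 * (l * n) ^ 2 * X := by ring
    _ ≤ 8 * C₀ / c * ((M₁ : ℝ) ^ q) ^ 2 * (4 * R) ^ 2 * X := by gcongr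
    _ = 128 * C₀ / c * ((M₁ : ℝ) ^ q) ^ 2 * R ^ 2 * X := by ring

end Pool.Agent.V5helper58.LP
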