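import Mathlib
import Pool.Agent.V5helper58.LP.Arch
import Pool.Agent.V5helper58.LP.Main

/-! The lower bound of Lang and Silverman if a few places, finite or infinite, carry a part of the
height of `j`. -/

set_option autoImplicit false
set_option linter.unusedSectionVars false

open Height NumberField Module IsDedekindDomain Matrix Filter Topology Finset
open WeierstrassCurve Pool.Agent.H951R3.PB TH951.LS TH951
open Pool.Agent.TH942 Pool.Agent.TH910.LS Pool.Agent.Y725.LS Pool.Agent.V5helper58.LA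

namespace Pool.Agent.V5helper58.LP

/-- the infinite places of an extension -/
theorem inf_above {K : Type} [Field K] [NumberField K] {L : Type} [Field L] [NumberField L]
    [Algebra K L] (j : K) :
    ∑ v : InfinitePlace K, (v.mult : ℝ) * Real.posLog (v.val j) ≤
      ∑ w : InfinitePlace L, (w.mult : ℝ) * Real.posLog (w.val (algebraMap K L j)) := by
  classical
  choose f hf using fun v : InfinitePlace K =>
    InfinitePlace.comap_surjective (k := K) (K := L) v
  have hinj : Function.Injective f := fun v v' h => by rw [← hf v, ← hf v', h]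
  calc ∑ v : InfinitePlace K, (v.mult : ℝ) * Real.posLog (v.val j)
      ≤ ∑ v : InfinitePlace K, ((f v).mult : ℝ) * Real.posLog ((f v).val (algebraMap K L j)) := by
        refine Finset.sum_le_sum fun v _ => ?_
        have h1 : v.val j = (f v).val (algebraMap K L j) := by
          conv_lhs => rw [← hf v]
          rfl
        have h2 : (v.mult : ℝ) ≤ (f v).mult := by
          have h3 := InfinitePlace.mult_comap_le (algebraMap K L) (f v)
          have h4 : (f v).comap (algebraMap K L) = v := hf v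
          rw [h4] at h3
          exact_mod_cast h3
        rw [h1]
        exact mul_le_mul_of_nonneg_right h2 Real.posLog_nonneg
    _ = ∑ w ∈ univ.image f, (w.mult : ℝ) * Real.posLog (w.val (algebraMap K L j)) := by
        rw [Finset.sum_image fun v _ v' _ h => hinj h]
    _ ≤ _ := Finset.sum_le_sum_of_subset_of_nonneg (Finset.subset_univ _)
        fun w _ _ => mul_nonneg (Nat.cast_nonneg _) Real.posLog_nonneg

/-- the places above `6` of an extension -/
theorem six_above {K : Type} [Field K] [NumberField K] {L : Type} [Field L] [NumberField L]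
    [Algebra K L] (j : K) (B : Finset (FinitePlace K)) (hB : ∀ v ∈ B, v.val 6 ≠ 1) :
    ∃ B' : Finset (FinitePlace L), (∀ w ∈ B', w.val 6 ≠ 1) ∧
      ∑ v ∈ B, Real.posLog (v.val j) ≤ ∑ w ∈ B', Real.posLog (w.val (algebraMap K L j)) := by
  classical
  choose f hf using fun v : FinitePlace K => exists_above (L := L) v
  have hinj : Function.Injective f := fun v v' h => by rw [← hf v, ← hf v', h]
  refine ⟨B.image f, ?_, ?_⟩
  · intro w hw
    obtain ⟨v, hv, rfl⟩ := Finset.mem_image.1 hw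
    have h1 : v.val ((6 : ℕ) : K) ≤ 1 := NF.natCast_le_one v 6
    have h2 : v.val (6 : K) < 1 := by
      refine lt_of_le_of_ne ?_ (hB v hv)
      simpa using h1
    have h3 := ext_apply (f v) (6 : K)
    rw [hf v, map_ofNat] at h3
    rw [h3]
    exact (pow_lt_one₀ (v.val.nonneg _) h2 (ldeg_pos K (f v)).ne').ne
  · rw [Finset.sum_image fun v _ v' _ h => hinj h]
    refine Finset.sum_le_sum fun v hv => ?_
    rw [ext_apply, hf v]
    have h2 : (1 : ℝ) ≤ ldeg K (f v) := by exact_mod_cast ldeg_pos K (f v)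
    unfold Real.posLog
    rw [Real.log_pow]
    rcases le_total (Real.log (v.val j)) 0 with h | h
    · rw [max_eq_left h]
      exact le_max_left _ _
    · rw [max_eq_right h]
      refine le_trans ?_ (le_max_right _ _)
      nlinarith

/-- large heights, the archimedean places and the places above `6` -/
theorem arch_far (D g : ℕ) : ∃ C A : ℝ, 0 < C ∧ 0 ≤ A ∧
    ∀ (K : Type) [Field K] [NumberField K], finrank ℚ K ≤ D →
    ∀ a b : 𝓞 K, 4 * (a : K) ^ 3 + 27 * (b : K) ^ 2 ≠ 0 →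
    ∀ (L : Type) [Field L] [NumberField L] [Algebra K L] [DecidableEq L],
      finrank K L ≤ 3 ^ (g * g) →
    ∀ (M : Matrix (Fin g) (Fin g) ℤ) (P : Fin g → Pts L a b),
      (M.map (Int.cast : ℤ → ℝ)).PosDef → ¬ IsOfFinAddOrder P →
    ∀ (B : Finset (FinitePlace K)) (l : ℝ),
      (∀ v ∈ B, v.val 6 ≠ 1) → 0 < l → l ≤ 1 → A < l * absH (jinv (a : K) b) →
      l * logHeight₁ (jinv (a : K) b) ≤
        ∑ v : InfinitePlace K, (v.mult : ℝ) * Real.posLog (v.val (jinv (a : K) b)) +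
          ∑ v ∈ B, Real.posLog (v.val (jinv (a : K) b)) →
      l ^ 3 * absH (jinv (a : K) b) ≤ C * (chatM M P / finrank ℚ L) := by
  classical
  obtain ⟨n, hn⟩ : ∃ n : ℝ, n = 3 ^ (g * g) := ⟨_, rfl⟩
  have hn0 : 0 < n := by rw [hn]; positivity
  have hn1 : 1 ≤ n := by rw [hn]; exact one_le_pow₀ (by norm_num)
  obtain ⟨C₁, A₁, hC₁, hA₁, hfar⟩ := arch_places (D * 3 ^ (g * g))
  refine ⟨n ^ 3 * C₁, n * A₁, by positivity, by positivity, ?_⟩
  intro K _ _ hK a b hab L _ _ _ _ hKL M P hM hP B l hB hl0 hl1 hAj hlj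
  have hnQ : finrank ℚ L ≤ D * 3 ^ (g * g) := by
    rw [← Module.finrank_mul_finrank ℚ K L]
    exact Nat.mul_le_mul hK hKL
  have hKL' : (finrank K L : ℝ) ≤ n := by rw [hn]; exact_mod_cast hKL
  have hab' : 4 * (algebraMap K L a) ^ 3 + 27 * (algebraMap K L b) ^ 2 ≠ 0 := by
    have h1 : algebraMap K L (4 * (a : K) ^ 3 + 27 * (b : K) ^ 2) ≠ 0 := by
      rw [ne_eq, map_eq_zero]
      exact hab
    rw [map_add, map_mul, map_mul, map_pow, map_pow, map_ofNat, map_ofNat] at h1
    exact h1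
  have hnL0 : (0 : ℝ) < finrank ℚ L := by
    exact_mod_cast (Module.finrank_pos : 0 < Module.finrank ℚ L)
  have hjL : jinv (algebraMap K L a) (algebraMap K L b) = algebraMap K L (jinv (a : K) b) := by
    unfold jinv
    simp [map_ofNat]
  have habsL : logHeight₁ (algebraMap K L (jinv (a : K) b)) / Module.finrank ℚ L =
      absH (jinv (a : K) b) := absH_ext L _
  obtain ⟨Q, -, hQ, hQ2⟩ := Pool.Agent.TH910.LS.reduction hab' M hM P hP
  obtain ⟨B', hB', hB's⟩ := six_above (L := L) (jinv (a : K) b) B hB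
  have hinf := inf_above (L := L) (jinv (a : K) b)
  have hlh : 0 ≤ logHeight₁ (jinv (a : K) b) := zero_le_logHeight₁ _
  have key := hfar L hnQ (algebraMap K L a) (algebraMap K L b) hab' Q hQ B' (l / n)
    (fun w hw => hB' w hw) (by positivity)
    (by rw [div_le_one hn0]; linarith) (by
      rw [hjL, habsL, div_mul_eq_mul_div, lt_div_iff₀ hn0]
      linarith) (by
      rw [hjL, logHeight₁_ext]
      calc l / n * (finrank K L * logHeight₁ (jinv (a : K) b))
          ≤ l / n * (n * logHeight₁ (jinv (a : K) b)) := by gcongr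
        _ = l * logHeight₁ (jinv (a : K) b) := by field_simp
        _ ≤ _ := hlj.trans (add_le_add hinf hB's))
  rw [hjL, habsL] at key
  have hX : chat Q / finrank ℚ L ≤ chatM M P / finrank ℚ L :=
    div_le_div_of_nonneg_right hQ2 hnL0.le
  have h1 : l ^ 3 * absH (jinv (a : K) b) = n ^ 3 * ((l / n) ^ 3 * absH (jinv (a : K) b)) := by
    field_simp
  rw [h1]
  calc n ^ 3 * ((l / n) ^ 3 * absH (jinv (a : K) b))
      ≤ n ^ 3 * (C₁ * (chat Q / finrank ℚ L)) :=
        mul_le_mul_of_nonneg_left key (by positivity)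
    _ ≤ n ^ 3 * (C₁ * (chatM M P / finrank ℚ L)) := by gcongr
    _ = _ := by ring

/-- From a lower bound by the height of `j`, with a loss `Y`, if this height is large, to the
lower bound with ramification for all heights. -/
theorem combine (D g : ℕ) (hg : 0 < g) (κ A : ℝ) (hκ : 0 ≤ κ) : ∃ c : ℝ, 0 < c ∧
    ∀ (K : Type) [Field K] [NumberField K], Module.finrank ℚ K ≤ D →
    ∀ a b : 𝓞 K, 4 * (a : K) ^ 3 + 27 * (b : K) ^ 2 ≠ 0 →
      absH (a : K) + absH (b : K) ≤ κ * (1 + absH (jinv (a : K) b)) →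
    ∀ (L : Type) [Field L] [NumberField L] [Algebra K L] [IsGalois K L] [DecidableEq L]
      (ρ : (L ≃ₐ[K] L) →* Matrix (Fin g) (Fin g) ℤ) (M : Matrix (Fin g) (Fin g) ℤ)
      (P : Fin g → Pts L a b) (T : Finset (HeightOneSpectrum (𝓞 L))),
      Polar ρ M → FixedPt ρ P →
      (Generates P ∧ ¬ IsOfFinAddOrder P) ∨ (Faithful ρ ∧ DenseOrbit ρ P) → RamPrimes K T →
    ∀ Y : ℝ, 1 ≤ Y →
      (A < absH (jinv (a : K) b) → finrank K L ≤ 3 ^ (g * g) →
        absH (jinv (a : K) b) ≤ Y * (chatM M P / Module.finrank ℚ L)) →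
        c / Y * (1 + absH (jinv (a : K) b) + logNorms T / Module.finrank ℚ L) ≤
          chatM M P / Module.finrank ℚ L := by
  classical
  obtain ⟨κ₀, hκ₀, hvar⟩ := var_const
  obtain ⟨n, hn⟩ : ∃ n : ℝ, n = 3 ^ (g * g) := ⟨_, rfl⟩
  have hn0 : 0 < n := by rw [hn]; positivity
  obtain ⟨E, hE⟩ : ∃ E : ℝ, E = 2 * ((1 + κ₀ * (1 + 2 * κ) * (1 + n)) + 4 * n) := ⟨_, rfl⟩
  have hE0 : 0 < E := by rw [hE]; positivity
  obtain ⟨A', hA'⟩ : ∃ A' : ℝ, A' = max A 1 := ⟨_, rfl⟩
  have hAA' : A ≤ A' := by rw [hA']; exact le_max_left _ _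
  have hA1 : 1 ≤ A' := by rw [hA']; exact le_max_right _ _
  have hlog2 : 0 < Real.log 2 := Real.log_pos (by norm_num)
  obtain ⟨s', hs'⟩ : ∃ s' : ℕ, s' = ⌈D * A' / Real.log 2⌉₊ := ⟨_, rfl⟩
  obtain ⟨c₃, δ₃, hc₃, hδ₃, hsmall⟩ := dense_main D g s' hg κ 0 hκ
  obtain ⟨A₃, c₄, hc₄, hsmall⟩ := hsmall 1 one_ne_zero
  refine ⟨min (1 / E) (min c₃ c₄), lt_min (by positivity) (lt_min hc₃ hc₄), ?_⟩
  intro K _ _ hK a b hab hκab L _ _ _ _ _ ρ M P T hM hP hor hT Y hY1 hfar
  have hY00 : 0 < Y := by linarith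
  obtain ⟨nL, hnL⟩ : ∃ nL : ℝ, nL = ((Module.finrank ℚ L : ℕ) : ℝ) := ⟨_, rfl⟩
  have hnL0 : 0 < nL := by
    rw [hnL]
    exact_mod_cast (Module.finrank_pos : 0 < Module.finrank ℚ L)
  have hj0 : 0 ≤ absH (jinv (a : K) b) :=
    div_nonneg (zero_le_logHeight₁ _) (Nat.cast_nonneg _)
  have hT0 : 0 ≤ logNorms T / nL :=
    div_nonneg (Finset.sum_nonneg fun _ _ => Real.log_natCast_nonneg _) hnL0.le
  have hY0 : 0 ≤ 1 + absH (jinv (a : K) b) + logNorms T / nL := by linarith
  obtain ⟨c, hc⟩ : ∃ c : ℝ, c = min (1 / E) (min c₃ c₄) := ⟨_, rfl⟩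
  have hcE : c ≤ 1 / E := by rw [hc]; exact min_le_left _ _
  have hc3 : c ≤ c₃ := by rw [hc]; exact (min_le_right _ _).trans (min_le_left _ _)
  have hc4 : c ≤ c₄ := by rw [hc]; exact (min_le_right _ _).trans (min_le_right _ _)
  have hc0 : 0 < c := by rw [hc]; exact lt_min (by positivity) (lt_min hc₃ hc₄)
  rw [← hc]
  obtain ⟨hH, ht⟩ : Generates P ∧ ¬ IsOfFinAddOrder P := by
    rcases hor with h | ⟨h1, h2⟩
    · exact h
    · exact ⟨h2.stab h1 hP, h2.nontors hg⟩
  have hf := gen_faithful hP hH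
  have hKL := faithful_deg hf
  by_cases hAj : A' < absH (jinv (a : K) b)
  · have h1 := hfar (by linarith) hKL
    have hY : 1 + (absH (a : K) + absH (b : K)) ≤
        (1 + 2 * κ) * absH (jinv (a : K) b) := by
      have h2 : κ * (1 + absH (jinv (a : K) b)) ≤ κ * (2 * absH (jinv (a : K) b)) :=
        mul_le_mul_of_nonneg_left (by linarith) hκ
      linarith
    have h2 := ram_bound hκ₀ hvar hab hM hP hT hH ht hY
    rw [← hnL, ← hn] at h2
    rw [← hnL] at h1 ⊢
    obtain ⟨X, hXd⟩ : ∃ X : ℝ, X = chatM M P / nL := ⟨_, rfl⟩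
    rw [← hXd] at h1 h2 ⊢
    obtain ⟨h, hh⟩ : ∃ h : ℝ, h = absH (jinv (a : K) b) := ⟨_, rfl⟩
    rw [← hh] at h1 h2 hY hAj hj0 hY0 ⊢
    have hX0 : 0 ≤ X := by
      have h3 : 0 ≤ Y * X := le_trans hj0 h1
      exact nonneg_of_mul_nonneg_right h3 (by positivity)
    have h4 : h + logNorms T / nL ≤
        ((1 + κ₀ * (1 + 2 * κ) * (1 + n)) + 4 * n) * Y * X := by
      have h5 : h + (κ₀ * ((1 + 2 * κ) * h) +
          n * (4 * X + κ₀ * ((1 + 2 * κ) * h))) =
          (1 + κ₀ * (1 + 2 * κ) * (1 + n)) * h + 4 * n * X := by ring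
      have h6 : (1 + κ₀ * (1 + 2 * κ) * (1 + n)) * h ≤
          (1 + κ₀ * (1 + 2 * κ) * (1 + n)) * (Y * X) :=
        mul_le_mul_of_nonneg_left h1 (by positivity)
      have h7 : 4 * n * X ≤ 4 * n * (Y * X) :=
        mul_le_mul_of_nonneg_left (le_mul_of_one_le_left hX0 hY1) (by positivity)
      linarith
    have h8 : 1 + h + logNorms T / nL ≤ E * Y * X := by
      rw [hE]
      linarith
    calc c / Y * (1 + h + logNorms T / nL) ≤ 1 / E / Y * (E * Y * X) := by
          gcongr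
      _ = X := by field_simp
  · push Not at hAj
    obtain ⟨T₂, hT₂, hT₂'⟩ := card_poles (jinv (a : K) b)
    have hSz' : SzpiroLe 0 δ₃ s' 1 a b L := by
      refine ⟨T₂, ∅, ?_, fun w hw => absurd hw (Finset.notMem_empty w), fun S hS => ?_⟩
      · rw [hs']
        have h1 : logHeight₁ (jinv (a : K) b) ≤ D * A' := by
          have h2 : logHeight₁ (jinv (a : K) b) = finrank ℚ K * absH (jinv (a : K) b) := by
            have h3 : (0 : ℝ) < Module.finrank ℚ K := by exact_mod_cast Module.finrank_pos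
            unfold absH
            field_simp
          rw [h2]
          exact mul_le_mul (by exact_mod_cast hK) hAj hj0 (Nat.cast_nonneg _)
        have h2 : (T₂.card : ℝ) ≤ D * A' / Real.log 2 := by
          rw [le_div_iff₀ hlog2]
          linarith
        exact_mod_cast h2.trans (Nat.le_ceil _)
      · have hSe : S = ∅ := by
          rw [Finset.eq_empty_iff_forall_notMem]
          intro v hv
          exact (hS v hv).1 (hT₂ v (hS v hv).2.2)
        rw [hSe, Finset.sum_empty, zero_mul, zero_add]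
        exact mul_nonneg hδ₃.le (zero_le_logHeight₁ _)
    have key := hsmall K hK a b hab hκab L hSz' ρ M P T hM hP hT hor
    refine le_trans ?_ key
    rw [← hnL]
    refine mul_le_mul_of_nonneg_right ?_ hY0
    have h1 : c / Y ≤ c := div_le_self hc0.le hY1
    refine h1.trans ?_
    split_ifs
    · exact hc3
    · exact hc4

/-- **A few places, finite or infinite, which carry a part of the height of `j`.** -/
theorem full_far (D g : ℕ) : ∃ C A : ℝ, 1 ≤ C ∧ 0 ≤ A ∧
    ∀ (K : Type) [Field K] [NumberField K], finrank ℚ K ≤ D →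
    ∀ a b : 𝓞 K, 4 * (a : K) ^ 3 + 27 * (b : K) ^ 2 ≠ 0 →
    ∀ (L : Type) [Field L] [NumberField L] [Algebra K L] [DecidableEq L],
      finrank K L ≤ 3 ^ (g * g) →
    ∀ (M : Matrix (Fin g) (Fin g) ℤ) (P : Fin g → Pts L a b),
      (M.map (Int.cast : ℤ → ℝ)).PosDef → ¬ IsOfFinAddOrder P →
    ∀ (B : Finset (FinitePlace K)) (l : ℝ), 0 < l → l ≤ 1 →
      A < l * absH (jinv (a : K) b) →
      l * logHeight₁ (jinv (a : K) b) ≤
        ∑ v : InfinitePlace K, (v.mult : ℝ) * Real.posLog (v.val (jinv (a : K) b)) +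
          ∑ v ∈ B, Real.posLog (v.val (jinv (a : K) b)) →
      l ^ 6 * absH (jinv (a : K) b) ≤ C * 625 ^ B.card * (chatM M P / finrank ℚ L) := by
  classical
  obtain ⟨C₁, A₁, hC₁, hA₁, h1⟩ := few_far D g
  obtain ⟨C₂, A₂, hC₂, hA₂, h2⟩ := arch_far D g
  refine ⟨64 * C₁ + 64 * C₂ + 1, 2 * A₁ + 2 * A₂, by linarith, by positivity, ?_⟩
  intro K _ _ hK a b hab L _ _ _ _ hKL M P hM hP B l hl0 hl1 hAj hlj
  obtain ⟨B₁, hB₁⟩ : ∃ B₁ : Finset (FinitePlace K), B₁ = B.filter (fun v => v.val 6 ≠ 1) :=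
    ⟨_, rfl⟩
  obtain ⟨B₂, hB₂⟩ : ∃ B₂ : Finset (FinitePlace K), B₂ = B.filter
    (fun v => v.val 6 = 1 ∧ 1 < v.val (jinv (a : K) b)) := ⟨_, rfl⟩
  have hj0 : 0 ≤ absH (jinv (a : K) b) :=
    div_nonneg (zero_le_logHeight₁ _) (Nat.cast_nonneg _)
  have hnL0 : (0 : ℝ) < finrank ℚ L := by
    exact_mod_cast (Module.finrank_pos : 0 < Module.finrank ℚ L)
  have hsum : ∑ v ∈ B, Real.posLog (v.val (jinv (a : K) b)) =
      ∑ v ∈ B₁, Real.posLog (v.val (jinv (a : K) b)) +
      ∑ v ∈ B₂, Real.log (v.val (jinv (a : K) b)) := by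
    rw [hB₁, hB₂, ← Finset.sum_filter_add_sum_filter_not B (fun v => v.val 6 ≠ 1)]
    congr 1
    rw [← Finset.filter_filter]
    simp only [not_not]
    rw [Finset.sum_filter (p := fun v : FinitePlace K => 1 < v.val (jinv (a : K) b))]
    refine Finset.sum_congr rfl fun v _ => ?_
    split_ifs with h
    · exact max_eq_right (Real.log_pos h).le
    · push Not at h
      exact max_eq_left (Real.log_nonpos (v.val.nonneg _) h)
  rw [hsum] at hlj
  have h625 : (1 : ℝ) ≤ 625 ^ B.card := one_le_pow₀ (by norm_num)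
  have hl6 : l ^ 3 ≤ 1 := pow_le_one₀ hl0.le hl1
  by_cases hcase : l / 2 * logHeight₁ (jinv (a : K) b) ≤
      ∑ v ∈ B₂, Real.log (v.val (jinv (a : K) b))
  · have key := h1 K hK a b hab (by nlinarith) L hKL M P hM hP B₂ (l / 2)
      (fun v hv => by rw [hB₂] at hv; exact (Finset.mem_filter.1 hv).2) (by positivity)
      (by linarith) hcase
    obtain ⟨X, hX⟩ : ∃ X : ℝ, X = chatM M P / finrank ℚ L := ⟨_, rfl⟩
    rw [← hX] at key ⊢
    have hX0 : 0 ≤ X := by
      have h3 : 0 ≤ C₁ * 625 ^ B₂.card * X := le_trans (by positivity) key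
      exact nonneg_of_mul_nonneg_right h3 (by positivity)
    have hpow : (625 : ℝ) ^ B₂.card ≤ 625 ^ B.card :=
      pow_le_pow_right₀ (by norm_num) (by rw [hB₂]; exact Finset.card_filter_le _ _)
    calc l ^ 6 * absH (jinv (a : K) b) = 64 * ((l / 2) ^ 6 * absH (jinv (a : K) b)) := by ring
      _ ≤ 64 * (C₁ * 625 ^ B₂.card * X) := by gcongr
      _ ≤ 64 * (C₁ * 625 ^ B.card * X) := by gcongr
      _ = 64 * C₁ * (625 ^ B.card * X) := by ring
      _ ≤ (64 * C₁ + 64 * C₂ + 1) * (625 ^ B.card * X) := by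
          refine mul_le_mul_of_nonneg_right (by linarith) (by positivity)
      _ = _ := by ring
  · push Not at hcase
    have key := h2 K hK a b hab L hKL M P hM hP B₁ (l / 2)
      (fun v hv => by rw [hB₁] at hv; exact (Finset.mem_filter.1 hv).2) (by positivity)
      (by linarith) (by linarith) (by linarith)
    obtain ⟨X, hX⟩ : ∃ X : ℝ, X = chatM M P / finrank ℚ L := ⟨_, rfl⟩
    rw [← hX] at key ⊢
    have hX0 : 0 ≤ X := by
      have h3 : 0 ≤ C₂ * X := le_trans (by positivity) key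
      exact nonneg_of_mul_nonneg_right h3 (by positivity)
    calc l ^ 6 * absH (jinv (a : K) b) =
          l ^ 3 * (8 * ((l / 2) ^ 3 * absH (jinv (a : K) b))) := by ring
      _ ≤ 1 * (8 * ((l / 2) ^ 3 * absH (jinv (a : K) b))) := by gcongr
      _ ≤ 1 * (8 * (C₂ * X)) := by gcongr
      _ ≤ 64 * C₂ * X := by
          have : 0 ≤ C₂ * X := by positivity
          linarith
      _ ≤ 64 * C₂ * (625 ^ B.card * X) := by
          refine mul_le_mul_of_nonneg_left (le_mul_of_one_le_left hX0 h625) (by positivity)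
      _ ≤ (64 * C₁ + 64 * C₂ + 1) * (625 ^ B.card * X) := by
          refine mul_le_mul_of_nonneg_right (by linarith) (by positivity)
      _ = _ := by ring

/-- **The lower bound with ramification.** -/
theorem full_main (D g : ℕ) (hg : 0 < g) (κ : ℝ) (hκ : 0 ≤ κ) : ∃ c A : ℝ, 0 < c ∧
    ∀ l : ℝ, 0 < l → l ≤ 1 → ∃ c₀ : ℝ, 0 < c₀ ∧
    ∀ (K : Type) [Field K] [NumberField K], Module.finrank ℚ K ≤ D →
    ∀ a b : 𝓞 K, 4 * (a : K) ^ 3 + 27 * (b : K) ^ 2 ≠ 0 →
      absH (a : K) + absH (b : K) ≤ κ * (1 + absH (jinv (a : K) b)) →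
    ∀ (L : Type) [Field L] [NumberField L] [Algebra K L] [IsGalois K L] [DecidableEq L]
      (ρ : (L ≃ₐ[K] L) →* Matrix (Fin g) (Fin g) ℤ) (M : Matrix (Fin g) (Fin g) ℤ)
      (P : Fin g → Pts L a b) (T : Finset (HeightOneSpectrum (𝓞 L))),
      Polar ρ M → FixedPt ρ P →
      (Generates P ∧ ¬ IsOfFinAddOrder P) ∨ (Faithful ρ ∧ DenseOrbit ρ P) → RamPrimes K T →
    ∀ B : Finset (FinitePlace K),
      l * logHeight₁ (jinv (a : K) b) ≤
        ∑ v : InfinitePlace K, (v.mult : ℝ) * Real.posLog (v.val (jinv (a : K) b)) +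
          ∑ v ∈ B, Real.posLog (v.val (jinv (a : K) b)) →
        (if A < l * absH (jinv (a : K) b) then c * l ^ 6 / 625 ^ B.card else c₀) *
            (1 + absH (jinv (a : K) b) + logNorms T / Module.finrank ℚ L) ≤
          chatM M P / Module.finrank ℚ L := by
  classical
  obtain ⟨C, A, hC, hA, hfar⟩ := full_far D g
  obtain ⟨c, hc, hcomb⟩ := combine D g hg κ A hκ
  refine ⟨c / C, A, by positivity, fun l hl0 hl1 => ?_⟩
  obtain ⟨c₀, hc₀, hcomb₀⟩ := combine D g hg κ (A / l) hκ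
  refine ⟨c₀, hc₀, ?_⟩
  intro K _ _ hK a b hab hκab L _ _ _ _ _ ρ M P T hM hP hor hT B hlj
  obtain ⟨hH, ht⟩ : Generates P ∧ ¬ IsOfFinAddOrder P := by
    rcases hor with h | ⟨h1, h2⟩
    · exact h
    · exact ⟨h2.stab h1 hP, h2.nontors hg⟩
  split_ifs with hAj
  · have h625 : (1 : ℝ) ≤ 625 ^ B.card := one_le_pow₀ (by norm_num)
    have hl6 : l ^ 6 ≤ 1 := pow_le_one₀ hl0.le hl1
    have hl60 : 0 < l ^ 6 := by positivity
    have h1 : 1 ≤ C * 625 ^ B.card := one_le_mul_of_one_le_of_one_le hC h625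
    have hY : 1 ≤ C * 625 ^ B.card / l ^ 6 := by
      rw [le_div_iff₀ hl60]
      linarith
    have key := hcomb K hK a b hab hκab L ρ M P T hM hP hor hT (C * 625 ^ B.card / l ^ 6) hY
      (fun _ hKL => by
        have h2 := hfar K hK a b hab L hKL M P hM.1 ht B l hl0 hl1 hAj hlj
        rw [mul_comm, ← le_div_iff₀ hl60] at h2
        refine h2.trans (le_of_eq ?_)
        ring)
    refine le_trans (le_of_eq ?_) key
    congr 1
    field_simp
  · have key := hcomb₀ K hK a b hab hκab L ρ M P T hM hP hor hT 1 le_rfl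
      (fun h => absurd h (by
        push Not at hAj ⊢
        rw [le_div_iff₀ hl0]
        linarith))
    rwa [div_one] at key

end Pool.Agent.V5helper58.LP
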